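import Mathlib

set_option autoImplicit false

open MeasureTheory Set

namespace Pool.Agent.H721Pach

/-- Finitely many discs (centres `(cx i, cy i)`, radii `r i`) with gaps at least `g`. -/
structure Cfg (N : ℕ) where
  cx : Fin N → ℝ
  cy : Fin N → ℝ
  r : Fin N → ℝ
  g : ℝ
  R : ℝ
  D : ℝ
  g_pos : 0 < g
  g_le : ∀ i, g ≤ r i
  r_le : ∀ i, r i ≤ R
  g_le_R : g ≤ R
  R_le : R ≤ D
  sep : ∀ i j, i ≠ j → r i + r j + g ≤ Real.sqrt ((cx j - cx i) ^ 2 + (cy j - cy i) ^ 2)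
  le_D : ∀ i j, Real.sqrt ((cx j - cx i) ^ 2 + (cy j - cy i) ^ 2) ≤ D

namespace Cfg

variable {N : ℕ} (C : Cfg N)

/-- A point `x = (θ, P)` of the plane of disc `i` is the oriented line with direction
`(cos θ, sin θ)` and signed offset `P` from the centre of disc `i`.
`off i l θ + P` is the signed offset of the same line from the centre of disc `l`. -/
noncomputable def off (i l : Fin N) (t : ℝ) : ℝ :=
  (C.cx l - C.cx i) * Real.sin t - (C.cy l - C.cy i) * Real.cos t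

/-- Signed distance between the feet of the centres of discs `i` and `l` on a line of direction `t`;
it is the derivative of `off i l`. -/
noncomputable def tau (i l : Fin N) (t : ℝ) : ℝ :=
  (C.cx l - C.cx i) * Real.cos t + (C.cy l - C.cy i) * Real.sin t

noncomputable def PP (i l : Fin N) (x : ℝ × ℝ) : ℝ := x.2 + C.off i l x.1

noncomputable def hh (i : Fin N) (p : ℝ) : ℝ := Real.sqrt (C.r i ^ 2 - p ^ 2)

/-- The line `x` leaving disc `i` hits disc `k` next. -/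
def Hit (i k : Fin N) (x : ℝ × ℝ) : Prop :=
  |x.2| < C.r i ∧ k ≠ i ∧ 0 < C.tau i k x.1 ∧ |C.PP i k x| < C.r k ∧
    ∀ l, l ≠ i → l ≠ k → 0 < C.tau i l x.1 → |C.PP i l x| < C.r l →
      C.tau i k x.1 < C.tau i l x.1

/-- The line `x` meets disc `i` and is tangent to no other disc. -/
def Gen (i : Fin N) (x : ℝ × ℝ) : Prop :=
  |x.2| < C.r i ∧ ∀ l, l ≠ i → |C.PP i l x| ≠ C.r l

/-- Reflection at disc `k` of the line `x` given in the plane of disc `i`;
the result is in the plane of disc `k`. -/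
noncomputable def F (i k : Fin N) (x : ℝ × ℝ) : ℝ × ℝ :=
  (x.1 + Real.pi - 2 * Real.arcsin (C.PP i k x / C.r k), C.PP i k x)

/-- Inverse of `F i k`. -/
noncomputable def Fi (i k : Fin N) (y : ℝ × ℝ) : ℝ × ℝ :=
  (y.1 - Real.pi + 2 * Real.arcsin (y.2 / C.r k),
    y.2 - C.off i k (y.1 - Real.pi + 2 * Real.arcsin (y.2 / C.r k)))

/-- Time reversal. -/
noncomputable def Rv (i : Fin N) (x : ℝ × ℝ) : ℝ × ℝ :=
  (x.1 + 2 * Real.arcsin (x.2 / C.r i), - x.2)

/-- angle of the collision point -/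
noncomputable def phi (i : Fin N) (x : ℝ × ℝ) : ℝ := x.1 + Real.arcsin (x.2 / C.r i)

noncomputable def Lam : ℝ := 1 + 2 * C.g / C.R
noncomputable def lam : ℝ := Real.sqrt C.Lam
noncomputable def K : ℝ := 16 * C.D

/-- Orbit segment. -/
def Orb (j : ℕ → Fin N) (x : ℕ → ℝ × ℝ) (m : ℕ) : Prop :=
  |(x 0).2| < C.r (j 0) ∧
    ∀ k < m, C.Gen (j k) (x k) ∧ C.Hit (j k) (j (k + 1)) (x k) ∧
      x (k + 1) = C.F (j k) (j (k + 1)) (x k)

abbrev St (N : ℕ) := Fin N × ℝ × ℝ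

open Classical in
noncomputable def nxt (s : Fin N × ℝ × ℝ) : Fin N × ℝ × ℝ :=
  if h : ∃ k, C.Hit s.1 k s.2 then (h.choose, C.F s.1 h.choose s.2) else s

/-- alive for one step -/
def Al (s : Fin N × ℝ × ℝ) : Prop := C.Gen s.1 s.2 ∧ ∃ k, C.Hit s.1 k s.2

/-- escapes at once -/
def Es (s : Fin N × ℝ × ℝ) : Prop := C.Gen s.1 s.2 ∧ ¬ ∃ k, C.Hit s.1 k s.2

/-- trapped states (clean infinite orbit) -/
def Tp : Set (Fin N × ℝ × ℝ) := {s | ∀ n, C.Al (C.nxt^[n] s)}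

/-- escape after exactly `n` reflections, without tangencies -/
def En (n : ℕ) : Set (Fin N × ℝ × ℝ) :=
  {s | (∀ k < n, C.Al (C.nxt^[k] s)) ∧ C.Es (C.nxt^[n] s)}

/-- states -/
def M : Set (Fin N × ℝ × ℝ) := {s | |s.2.2| < C.r s.1}

/-- reversed state -/
noncomputable def rev (s : Fin N × ℝ × ℝ) : Fin N × ℝ × ℝ := (s.1, C.Rv s.1 s.2)

/-- forward good states at scale `δ`. -/
def Gp (δ : ℝ) : Set (Fin N × ℝ × ℝ) :=
  {s | C.K * δ < C.r s.1 - |s.2.2| ∧
    ∀ n, (∀ k < n, C.Al (C.nxt^[k] s)) → ∀ l, l ≠ (C.nxt^[n] s).1 →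
      C.K * δ / C.lam ^ n < |(|C.PP (C.nxt^[n] s).1 l (C.nxt^[n] s).2| - C.r l)|}

end Cfg

end Pool.Agent.H721Pach
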