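import Pool.Agent.H721Pach.Defs

set_option autoImplicit false

open MeasureTheory Set

namespace Pool.Agent.H721Pach
namespace Cfg
variable {N : ℕ} (C : Cfg N)

-- TARGET
theorem hasDerivAt_off (i l : Fin N) (t : ℝ) : HasDerivAt (C.off i l) (C.tau i l t) t := by
  have h := ((Real.hasDerivAt_sin t).const_mul (C.cx l - C.cx i)).sub
    ((Real.hasDerivAt_cos t).const_mul (C.cy l - C.cy i))
  refine (h.congr_deriv ?_)
  unfold tau
  ring

theorem hasDerivAt_tau (i l : Fin N) (t : ℝ) : HasDerivAt (C.tau i l) (-(C.off i l t)) t := by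
  have h := ((Real.hasDerivAt_cos t).const_mul (C.cx l - C.cx i)).add
    ((Real.hasDerivAt_sin t).const_mul (C.cy l - C.cy i))
  refine (h.congr_deriv ?_)
  unfold off
  ring

theorem off_sq_add_tau_sq (i l : Fin N) (t : ℝ) :
    C.off i l t ^ 2 + C.tau i l t ^ 2 = (C.cx l - C.cx i) ^ 2 + (C.cy l - C.cy i) ^ 2 := by
  unfold off tau
  have h := Real.sin_sq_add_cos_sq t
  linear_combination ((C.cx l - C.cx i) ^ 2 + (C.cy l - C.cy i) ^ 2) * h

theorem abs_off_le (i l : Fin N) (t : ℝ) : |C.off i l t| ≤ C.D := by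
  refine le_trans (Real.abs_le_sqrt ?_) (C.le_D i l)
  rw [← C.off_sq_add_tau_sq i l t]
  linarith [sq_nonneg (C.tau i l t)]

theorem abs_tau_le (i l : Fin N) (t : ℝ) : |C.tau i l t| ≤ C.D := by
  refine le_trans (Real.abs_le_sqrt ?_) (C.le_D i l)
  rw [← C.off_sq_add_tau_sq i l t]
  linarith [sq_nonneg (C.off i l t)]

theorem off_add_two_pi (i l : Fin N) (t : ℝ) : C.off i l (t + 2 * Real.pi) = C.off i l t := by
  unfold off
  rw [Real.sin_add_two_pi, Real.cos_add_two_pi]

theorem tau_add_two_pi (i l : Fin N) (t : ℝ) : C.tau i l (t + 2 * Real.pi) = C.tau i l t := by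
  unfold tau
  rw [Real.sin_add_two_pi, Real.cos_add_two_pi]

theorem off_add_pi (i l : Fin N) (t : ℝ) : C.off i l (t + Real.pi) = - C.off i l t := by
  unfold off
  rw [Real.sin_add_pi, Real.cos_add_pi]
  ring

theorem tau_add_pi (i l : Fin N) (t : ℝ) : C.tau i l (t + Real.pi) = - C.tau i l t := by
  unfold tau
  rw [Real.sin_add_pi, Real.cos_add_pi]
  ring

theorem off_symm (i l : Fin N) (t : ℝ) : C.off l i t = - C.off i l t := by
  unfold off
  ring

theorem tau_symm (i l : Fin N) (t : ℝ) : C.tau l i t = - C.tau i l t := by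
  unfold tau
  ring

theorem off_trans (i l m : Fin N) (t : ℝ) : C.off i l t + C.off l m t = C.off i m t := by
  unfold off
  ring

theorem tau_trans (i l m : Fin N) (t : ℝ) : C.tau i l t + C.tau l m t = C.tau i m t := by
  unfold tau
  ring

theorem Fi_F (i k : Fin N) (x : ℝ × ℝ) : C.Fi i k (C.F i k x) = x := by
  have h1 : (C.F i k x).1 - Real.pi + 2 * Real.arcsin ((C.F i k x).2 / C.r k) = x.1 := by
    unfold F
    ring
  unfold Fi
  rw [h1]
  refine Prod.ext rfl ?_
  show (C.F i k x).2 - C.off i k x.1 = x.2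
  unfold F PP
  ring

theorem F_Fi (i k : Fin N) (y : ℝ × ℝ) : C.F i k (C.Fi i k y) = y := by
  have h1 : C.PP i k (C.Fi i k y) = y.2 := by
    unfold PP Fi
    ring
  unfold F
  rw [h1]
  refine Prod.ext ?_ rfl
  show (C.Fi i k y).1 + Real.pi - 2 * Real.arcsin (y.2 / C.r k) = y.1
  unfold Fi
  ring

theorem Rv_Rv (i : Fin N) (x : ℝ × ℝ) : C.Rv i (C.Rv i x) = x := by
  unfold Rv
  refine Prod.ext ?_ ?_
  · show x.1 + 2 * Real.arcsin (x.2 / C.r i) + 2 * Real.arcsin (-x.2 / C.r i) = x.1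
    rw [neg_div, Real.arcsin_neg]
    ring
  · show - -x.2 = x.2
    ring

end Cfg

end Pool.Agent.H721Pach
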