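import Pool.Agent.H721Pach.J1

set_option autoImplicit false

open MeasureTheory Set

namespace Pool.Agent.H721Pach
namespace Cfg
variable {N : ℕ} (C : Cfg N)


-- TARGET
/-- On a line meeting the two (closed) discs `i` and `l`, the feet are far apart. -/
theorem tau_gap {i l : Fin N} (hil : l ≠ i) {x : ℝ × ℝ} (hx : |x.2| ≤ C.r i)
    (hl : |C.PP i l x| ≤ C.r l) :
    C.hh i x.2 + C.hh l (C.PP i l x) + C.g ≤ |C.tau i l x.1| := by
  by_contra hlt
  push Not at hlt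
  have hsep := C.sep i l hil.symm
  have hot := C.off_sq_add_tau_sq i l x.1
  have hri : 0 ≤ C.r i := (abs_nonneg _).trans hx
  have hrl : 0 ≤ C.r l := (abs_nonneg _).trans hl
  have hg := C.g_pos
  have hP : C.PP i l x = x.2 + C.off i l x.1 := rfl
  have ha2 : C.hh i x.2 ^ 2 = C.r i ^ 2 - x.2 ^ 2 := by
    apply Real.sq_sqrt
    have := sq_le_sq' (neg_le_of_abs_le hx) (le_of_abs_le hx)
    linarith
  have hb2 : C.hh l (C.PP i l x) ^ 2 = C.r l ^ 2 - (C.PP i l x) ^ 2 := by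
    apply Real.sq_sqrt
    have := sq_le_sq' (neg_le_of_abs_le hl) (le_of_abs_le hl)
    linarith
  have ha0 : 0 ≤ C.hh i x.2 := Real.sqrt_nonneg _
  have hb0 : 0 ≤ C.hh l (C.PP i l x) := Real.sqrt_nonneg _
  have hT0 : 0 ≤ |C.tau i l x.1| := abs_nonneg _
  have hT2 : |C.tau i l x.1| ^ 2 = C.tau i l x.1 ^ 2 := sq_abs _
  set a := C.hh i x.2
  set b := C.hh l (C.PP i l x)
  set T := |C.tau i l x.1|
  set q := C.PP i l x
  set p := x.2
  set d := Real.sqrt ((C.cx l - C.cx i) ^ 2 + (C.cy l - C.cy i) ^ 2) with hd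
  have hd2 : d ^ 2 = (C.cx l - C.cx i) ^ 2 + (C.cy l - C.cy i) ^ 2 :=
    Real.sq_sqrt (by positivity)
  have hoff : C.off i l x.1 = q - p := by rw [hP]; ring
  have h1 : d ^ 2 = (q - p) ^ 2 + T ^ 2 := by rw [hd2, ← hot, hoff, hT2]
  have h2 : T ^ 2 < (a + b + C.g) ^ 2 := by
    apply sq_lt_sq' _ hlt
    linarith
  have h3 : (C.r i + C.r l + C.g) ^ 2 ≤ d ^ 2 := by
    apply pow_le_pow_left₀ (by positivity) hsep
  have h4 : a * b - p * q ≤ C.r i * C.r l := by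
    apply abs_le_of_sq_le_sq' _ (by positivity) |>.2
    have : (C.r i * C.r l) ^ 2 - (a * b - p * q) ^ 2 = (a * q + b * p) ^ 2 := by
      have e1 : C.r i ^ 2 = a ^ 2 + p ^ 2 := by rw [ha2]; ring
      have e2 : C.r l ^ 2 = b ^ 2 + q ^ 2 := by rw [hb2]; ring
      rw [mul_pow, e1, e2]; ring
    nlinarith [sq_nonneg (a * q + b * p)]
  have h5 : a ≤ C.r i := by
    apply le_of_sq_le_sq _ hri
    rw [ha2]; nlinarith [sq_nonneg p]
  have h6 : b ≤ C.r l := by
    apply le_of_sq_le_sq _ hrl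
    rw [hb2]; nlinarith [sq_nonneg q]
  nlinarith [mul_nonneg hg.le (sub_nonneg.mpr h5), mul_nonneg hg.le (sub_nonneg.mpr h6)]

/-- Two discs ahead: the second one is farther by a definite amount. -/
theorem tau_order {i k l : Fin N} {x : ℝ × ℝ} (hkl : l ≠ k)
    (hk : |C.PP i k x| ≤ C.r k) (hl : |C.PP i l x| ≤ C.r l) (h : C.tau i k x.1 ≤ C.tau i l x.1) :
    C.tau i k x.1 + C.hh k (C.PP i k x) + C.hh l (C.PP i l x) + C.g ≤ C.tau i l x.1 := by
  have hPP : C.PP k l (x.1, C.PP i k x) = C.PP i l x := by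
    have := C.off_trans i k l x.1
    simp only [PP]
    linarith
  have h1 := C.tau_gap (i := k) (l := l) hkl (x := (x.1, C.PP i k x)) hk (by rw [hPP]; exact hl)
  rw [hPP] at h1
  simp only at h1
  have h2 := C.tau_trans i k l x.1
  rw [abs_of_nonneg (by linarith)] at h1
  linarith

theorem hit_unique {i k k' : Fin N} {x : ℝ × ℝ} (h : C.Hit i k x) (h' : C.Hit i k' x) :
    k = k' := by
  by_contra hne
  obtain ⟨_, h1, h2, h3, h4⟩ := h
  obtain ⟨_, h1', h2', h3', h4'⟩ := h'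
  have e1 := h4 k' h1' (fun e => hne e.symm) h2' h3'
  have e2 := h4' k h1 hne h2 h3
  exact lt_asymm e1 e2

/-- If some disc ahead is met then some disc is hit. -/
theorem exists_hit {i : Fin N} {x : ℝ × ℝ} (hx : |x.2| < C.r i)
    (h : ∃ l, l ≠ i ∧ 0 < C.tau i l x.1 ∧ |C.PP i l x| < C.r l) : ∃ k, C.Hit i k x := by
  classical
  obtain ⟨l0, hl0⟩ := h
  let S : Finset (Fin N) := Finset.univ.filter
    (fun l => l ≠ i ∧ 0 < C.tau i l x.1 ∧ |C.PP i l x| < C.r l)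
  obtain ⟨k, hk, hmin⟩ := Finset.exists_min_image S (fun l => C.tau i l x.1)
    ⟨l0, Finset.mem_filter.mpr ⟨Finset.mem_univ _, hl0⟩⟩
  obtain ⟨-, h1, h2, h3⟩ := Finset.mem_filter.mp hk
  refine ⟨k, hx, h1, h2, h3, fun l hli hlk hl1 hl2 => ?_⟩
  have h4 := hmin l (Finset.mem_filter.mpr ⟨Finset.mem_univ _, hli, hl1, hl2⟩)
  have h5 := C.tau_order hlk h3.le hl2.le h4
  have h6 : 0 ≤ C.hh k (C.PP i k x) := Real.sqrt_nonneg _
  have h7 : 0 ≤ C.hh l (C.PP i l x) := Real.sqrt_nonneg _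
  have := C.g_pos
  linarith

end Cfg

end Pool.Agent.H721Pach
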