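import Pool.Agent.H721Pach.J2

set_option autoImplicit false

open MeasureTheory Set

namespace Pool.Agent.H721Pach
namespace Cfg
variable {N : ℕ} (C : Cfg N)


theorem j7790_off_self (i : Fin N) (t : ℝ) : C.off i i t = 0 := by
  unfold off; ring

theorem j7790_tau_self (i : Fin N) (t : ℝ) : C.tau i i t = 0 := by
  unfold tau; ring

theorem j7790_PP_self (i : Fin N) (x : ℝ × ℝ) : C.PP i i x = x.2 := by
  unfold PP; rw [j7790_off_self]; ring

/-- `tau i l` does not vanish on lines meeting both discs -/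
theorem j7790_tau_ne {i l : Fin N} {x : ℝ × ℝ} (hl : l ≠ i) (hx : |x.2| < C.r i)
    (hlx : |C.PP i l x| < C.r l) : C.tau i l x.1 ≠ 0 := by
  intro h0
  have h := C.tau_order (i := i) (k := i) (l := l) (x := x) hl
    (by rw [j7790_PP_self]; exact hx.le) hlx.le (by rw [j7790_tau_self, h0])
  rw [j7790_tau_self, h0] at h
  have h1 : 0 ≤ C.hh i (C.PP i i x) := Real.sqrt_nonneg _
  have h2 : 0 ≤ C.hh l (C.PP i l x) := Real.sqrt_nonneg _
  have h3 := C.g_pos
  linarith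

theorem j7790_tau_ne2 {i k l : Fin N} {x : ℝ × ℝ} (hkl : l ≠ k) (hkx : |C.PP i k x| < C.r k)
    (hlx : |C.PP i l x| < C.r l) : C.tau i l x.1 - C.tau i k x.1 ≠ 0 := by
  intro h0
  have h := C.tau_order (i := i) (k := k) (l := l) (x := x) hkl hkx.le hlx.le (by linarith)
  have h1 : 0 ≤ C.hh k (C.PP i k x) := Real.sqrt_nonneg _
  have h2 : 0 ≤ C.hh l (C.PP i l x) := Real.sqrt_nonneg _
  have h3 := C.g_pos
  linarith

theorem j7790_off_lip (i l : Fin N) (s t : ℝ) : |C.off i l s - C.off i l t| ≤ C.D * |s - t| := by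
  have hder : ∀ u ∈ (Set.univ : Set ℝ), HasDerivWithinAt (C.off i l) (C.tau i l u) Set.univ u := by
    intro u _
    have h1 : HasDerivAt (C.off i l)
        ((C.cx l - C.cx i) * Real.cos u - (C.cy l - C.cy i) * (-Real.sin u)) u :=
      ((Real.hasDerivAt_sin u).const_mul _).sub ((Real.hasDerivAt_cos u).const_mul _)
    have h2 : (C.cx l - C.cx i) * Real.cos u - (C.cy l - C.cy i) * (-Real.sin u) = C.tau i l u := by
      unfold tau; ring
    rw [h2] at h1
    exact h1.hasDerivWithinAt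
  have hbd : ∀ u ∈ (Set.univ : Set ℝ), ‖C.tau i l u‖ ≤ C.D := by
    intro u _
    rw [Real.norm_eq_abs]
    refine le_trans (Real.abs_le_sqrt ?_) (C.le_D i l)
    unfold tau
    have h1 := Real.sin_sq_add_cos_sq u
    have h2 : (C.cx l - C.cx i) ^ 2 + (C.cy l - C.cy i) ^ 2 -
        ((C.cx l - C.cx i) * Real.cos u + (C.cy l - C.cy i) * Real.sin u) ^ 2 =
        ((C.cx l - C.cx i) * Real.sin u - (C.cy l - C.cy i) * Real.cos u) ^ 2 := by
      have h3 : (C.cx l - C.cx i) ^ 2 + (C.cy l - C.cy i) ^ 2 =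
        ((C.cx l - C.cx i) ^ 2 + (C.cy l - C.cy i) ^ 2) * (Real.sin u ^ 2 + Real.cos u ^ 2) := by
        rw [h1, mul_one]
      rw [h3]; ring
    nlinarith [sq_nonneg ((C.cx l - C.cx i) * Real.sin u - (C.cy l - C.cy i) * Real.cos u)]
  have h := Convex.norm_image_sub_le_of_norm_hasDerivWithin_le hder hbd convex_univ
    (Set.mem_univ t) (Set.mem_univ s)
  rwa [Real.norm_eq_abs, Real.norm_eq_abs] at h

theorem j7790_sign {f : ℝ → ℝ} (hf : Continuous f) (h : ∀ t ∈ Set.Icc (0 : ℝ) 1, f t ≠ 0) :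
    0 < f 0 ↔ 0 < f 1 := by
  constructor
  · intro h0
    by_contra h1
    obtain ⟨t, ht, ht'⟩ := intermediate_value_Icc' (zero_le_one' ℝ) hf.continuousOn
      (show (0 : ℝ) ∈ Set.Icc (f 1) (f 0) from ⟨not_lt.1 h1, h0.le⟩)
    exact h t ht ht'
  · intro h1
    by_contra h0
    obtain ⟨t, ht, ht'⟩ := intermediate_value_Icc (zero_le_one' ℝ) hf.continuousOn
      (show (0 : ℝ) ∈ Set.Icc (f 0) (f 1) from ⟨not_lt.1 h0, h1.le⟩)
    exact h t ht ht'

theorem j7790_rev_eq (i k : Fin N) (x : ℝ × ℝ) :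
    C.Rv k (C.F i k x) = (x.1 + Real.pi, - C.PP i k x) := by
  unfold Rv F
  ext
  · show x.1 + Real.pi - 2 * Real.arcsin (C.PP i k x / C.r k) +
      2 * Real.arcsin (C.PP i k x / C.r k) = x.1 + Real.pi
    ring
  · rfl

theorem j7790_PP_rev (i k l : Fin N) (x : ℝ × ℝ) :
    C.PP k l (x.1 + Real.pi, - C.PP i k x) = - C.PP i l x := by
  have h1 := C.off_trans i k l x.1
  show - C.PP i k x + C.off k l (x.1 + Real.pi) = - C.PP i l x
  rw [off_add_pi]
  unfold PP
  linarith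

-- TARGET
/-- Time reversal of one step. -/
theorem rev_step {i k : Fin N} {x : ℝ × ℝ} (hg : C.Gen i x) (h : C.Hit i k x) :
    C.Gen k (C.Rv k (C.F i k x)) ∧ C.Hit k i (C.Rv k (C.F i k x)) ∧
      C.F k i (C.Rv k (C.F i k x)) = C.Rv i x + (2 * Real.pi, 0) := by
  obtain ⟨hxi, hki, htk, hPk, hall⟩ := h
  obtain ⟨_, hgen⟩ := hg
  rw [j7790_rev_eq]
  refine ⟨⟨?_, ?_⟩, ⟨?_, hki.symm, ?_, ?_, ?_⟩, ?_⟩
  · show |(- C.PP i k x)| < C.r k
    rw [abs_neg]; exact hPk
  · intro l hl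
    rw [j7790_PP_rev, abs_neg]
    by_cases hli : l = i
    · rw [hli, j7790_PP_self]
      exact hxi.ne
    · exact hgen l hli
  · show |(- C.PP i k x)| < C.r k
    rw [abs_neg]; exact hPk
  · show 0 < C.tau k i (x.1 + Real.pi)
    rw [tau_add_pi, tau_symm, neg_neg]
    exact htk
  · rw [j7790_PP_rev, abs_neg, j7790_PP_self]
    exact hxi
  · intro l hlk hli
    show 0 < C.tau k l (x.1 + Real.pi) → _ → C.tau k i (x.1 + Real.pi) < C.tau k l (x.1 + Real.pi)
    intro ht hPl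
    rw [j7790_PP_rev, abs_neg] at hPl
    rw [tau_add_pi] at ht ⊢
    rw [tau_add_pi, C.tau_symm i k, neg_neg]
    have h1 := C.tau_trans i k l x.1
    have h2 := C.j7790_tau_ne hli hxi hPl
    have h3 : ¬ 0 < C.tau i l x.1 := by
      intro h4
      have := hall l hli hlk h4 hPl
      linarith
    have h4 : C.tau i l x.1 < 0 := lt_of_le_of_ne (not_lt.1 h3) h2
    linarith
  · unfold F Rv
    rw [j7790_PP_rev, j7790_PP_self]
    ext
    · show x.1 + Real.pi + Real.pi - 2 * Real.arcsin (-x.2 / C.r i) =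
        x.1 + 2 * Real.arcsin (x.2 / C.r i) + 2 * Real.pi
      rw [neg_div, Real.arcsin_neg]
      ring
    · show -x.2 = -x.2 + 0
      ring

theorem j7790_seg {i l : Fin N} {x y : ℝ × ℝ} {m : ℝ} (hxy : |y.2 - x.2| + C.D * |y.1 - x.1| ≤ m)
    {t : ℝ} (ht : t ∈ Set.Icc (0 : ℝ) 1) :
    |C.PP i l (x.1 + t * (y.1 - x.1), x.2 + t * (y.2 - x.2)) - C.PP i l x| ≤ m := by
  have h1 := C.j7790_off_lip i l (x.1 + t * (y.1 - x.1)) x.1
  have e1 : C.PP i l (x.1 + t * (y.1 - x.1), x.2 + t * (y.2 - x.2)) - C.PP i l x =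
      t * (y.2 - x.2) + (C.off i l (x.1 + t * (y.1 - x.1)) - C.off i l x.1) := by
    unfold PP; ring
  have e2 : x.1 + t * (y.1 - x.1) - x.1 = t * (y.1 - x.1) := by ring
  rw [e2, abs_mul, abs_of_nonneg ht.1] at h1
  rw [e1]
  have h2 := abs_add_le (t * (y.2 - x.2)) (C.off i l (x.1 + t * (y.1 - x.1)) - C.off i l x.1)
  rw [abs_mul, abs_of_nonneg ht.1] at h2
  have hD : 0 ≤ C.D * |y.1 - x.1| := by
    have h3 := C.g_pos
    have h4 := C.g_le_R
    have h5 := C.R_le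
    exact mul_nonneg (by linarith) (abs_nonneg _)
  have h6 : 0 ≤ |y.2 - x.2| := abs_nonneg _
  have h7 : t * |y.2 - x.2| ≤ |y.2 - x.2| := by nlinarith [ht.2]
  have h8 : C.D * (t * |y.1 - x.1|) ≤ C.D * |y.1 - x.1| := by
    have : C.D * (t * |y.1 - x.1|) = t * (C.D * |y.1 - x.1|) := by ring
    rw [this]
    nlinarith [ht.2]
  linarith

theorem j7790_small {i : Fin N} {x y : ℝ × ℝ} (hx : |x.2| < C.r i) (hy : |y.2| < C.r i)
    {t : ℝ} (ht : t ∈ Set.Icc (0 : ℝ) 1) : |x.2 + t * (y.2 - x.2)| < C.r i := by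
  rw [abs_lt] at hx hy ⊢
  obtain ⟨h1, h2⟩ := hx
  obtain ⟨h3, h4⟩ := hy
  obtain ⟨h5, h6⟩ := ht
  rcases eq_or_lt_of_le h5 with h | h
  · rw [← h]; constructor <;> linarith
  · constructor
    · nlinarith [mul_nonneg (sub_nonneg.2 h6) (by linarith : 0 ≤ x.2 + C.r i),
        mul_pos h (by linarith : 0 < y.2 + C.r i)]
    · nlinarith [mul_nonneg (sub_nonneg.2 h6) (by linarith : 0 ≤ C.r i - x.2),
        mul_pos h (by linarith : 0 < C.r i - y.2)]

/-- Stability of the combinatorics under small displacements. -/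
theorem hit_stable {i : Fin N} {x y : ℝ × ℝ} {m : ℝ} (hx : |x.2| < C.r i) (hy : |y.2| < C.r i)
    (hm : ∀ l, l ≠ i → m < |(|C.PP i l x| - C.r l)|)
    (hxy : |y.2 - x.2| + C.D * |y.1 - x.1| ≤ m) :
    C.Gen i y ∧ (∀ k, C.Hit i k x ↔ C.Hit i k y) := by
  -- the segment
  have hseg : ∀ l, ∀ t ∈ Set.Icc (0 : ℝ) 1,
      |C.PP i l (x.1 + t * (y.1 - x.1), x.2 + t * (y.2 - x.2)) - C.PP i l x| ≤ m :=
    fun l t ht => C.j7790_seg hxy ht
  have hyeq : (x.1 + 1 * (y.1 - x.1), x.2 + 1 * (y.2 - x.2)) = y := by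
    ext
    · show x.1 + 1 * (y.1 - x.1) = y.1
      ring
    · show x.2 + 1 * (y.2 - x.2) = y.2
      ring
  have hdy : ∀ l, |C.PP i l y - C.PP i l x| ≤ m := by
    intro l
    have := hseg l 1 ⟨zero_le_one, le_rfl⟩
    rwa [hyeq] at this
  have hA : ∀ l, l ≠ i → ∀ z : ℝ × ℝ, |C.PP i l z - C.PP i l x| ≤ m →
      (|C.PP i l x| < C.r l → |C.PP i l z| < C.r l) ∧ (C.r l < |C.PP i l x| → C.r l < |C.PP i l z|) := by
    intro l hl z hz
    have h1 := hm l hl
    have h2 := abs_le.1 ((abs_abs_sub_abs_le (C.PP i l z) (C.PP i l x)).trans hz)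
    constructor
    · intro h3
      rw [abs_of_neg (by linarith : |C.PP i l x| - C.r l < 0)] at h1
      linarith [h2.2]
    · intro h3
      rw [abs_of_pos (by linarith : 0 < |C.PP i l x| - C.r l)] at h1
      linarith [h2.1]
  have hne : ∀ l, l ≠ i → |C.PP i l x| < C.r l ∨ C.r l < |C.PP i l x| := by
    intro l hl
    rcases lt_trichotomy (|C.PP i l x|) (C.r l) with h | h | h
    · exact Or.inl h
    · exfalso
      have h1 := hm l hl
      rw [h, sub_self, abs_zero] at h1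
      have h2 : 0 ≤ |y.2 - x.2| := abs_nonneg _
      have h3 : 0 ≤ C.D * |y.1 - x.1| := by
        have h3 := C.g_pos
        have h4 := C.g_le_R
        have h5 := C.R_le
        exact mul_nonneg (by linarith) (abs_nonneg _)
      linarith
    · exact Or.inr h
  have hAiff : ∀ l, l ≠ i → (|C.PP i l x| < C.r l ↔ |C.PP i l y| < C.r l) := by
    intro l hl
    refine ⟨(hA l hl y (hdy l)).1, fun h => ?_⟩
    rcases hne l hl with h1 | h1
    · exact h1
    · exact absurd ((hA l hl y (hdy l)).2 h1) (not_lt.2 h.le)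
  have hcont : ∀ l, Continuous (fun t : ℝ => C.tau i l (x.1 + t * (y.1 - x.1))) := by
    intro l
    unfold tau
    fun_prop
  have hB : ∀ l, l ≠ i → |C.PP i l x| < C.r l → (0 < C.tau i l x.1 ↔ 0 < C.tau i l y.1) := by
    intro l hl hlx
    have h1 := j7790_sign (hcont l) (fun t ht => by
      have h2 := (hA l hl _ (hseg l t ht)).1 hlx
      exact C.j7790_tau_ne (x := (x.1 + t * (y.1 - x.1), x.2 + t * (y.2 - x.2))) hl
        (C.j7790_small hx hy ht) h2)
    have e0 : x.1 + 0 * (y.1 - x.1) = x.1 := by ring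
    have e1 : x.1 + 1 * (y.1 - x.1) = y.1 := by ring
    rw [e0, e1] at h1
    exact h1
  have hC : ∀ k l, k ≠ i → l ≠ i → l ≠ k → |C.PP i k x| < C.r k → |C.PP i l x| < C.r l →
      (C.tau i k x.1 < C.tau i l x.1 ↔ C.tau i k y.1 < C.tau i l y.1) := by
    intro k l hk hl hkl hkx hlx
    have h1 := j7790_sign (f := fun t : ℝ => C.tau i l (x.1 + t * (y.1 - x.1)) -
        C.tau i k (x.1 + t * (y.1 - x.1))) ((hcont l).sub (hcont k)) (fun t ht => by
      have h2 := (hA l hl _ (hseg l t ht)).1 hlx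
      have h3 := (hA k hk _ (hseg k t ht)).1 hkx
      exact C.j7790_tau_ne2 (x := (x.1 + t * (y.1 - x.1), x.2 + t * (y.2 - x.2))) hkl h3 h2)
    have e0 : x.1 + 0 * (y.1 - x.1) = x.1 := by ring
    have e1 : x.1 + 1 * (y.1 - x.1) = y.1 := by ring
    rw [e0, e1, sub_pos, sub_pos] at h1
    exact h1
  refine ⟨⟨hy, ?_⟩, ?_⟩
  · intro l hl h
    rcases hne l hl with h1 | h1
    · exact ((hA l hl y (hdy l)).1 h1).ne h
    · exact ((hA l hl y (hdy l)).2 h1).ne' h
  · intro k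
    constructor
    · rintro ⟨_, hki, htk, hPk, hall⟩
      refine ⟨hy, hki, (hB k hki hPk).1 htk, (hAiff k hki).1 hPk, ?_⟩
      intro l hli hlk htl hPl
      have hPl' := (hAiff l hli).2 hPl
      have htl' := (hB l hli hPl').2 htl
      exact (hC k l hki hli hlk hPk hPl').1 (hall l hli hlk htl' hPl')
    · rintro ⟨_, hki, htk, hPk, hall⟩
      have hPk' := (hAiff k hki).2 hPk
      refine ⟨hx, hki, (hB k hki hPk').2 htk, hPk', ?_⟩
      intro l hli hlk htl hPl
      have hPl' := (hAiff l hli).1 hPl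
      have htl' := (hB l hli hPl).1 htl
      exact (hC k l hki hli hlk hPk' hPl).2 (hall l hli hlk htl' hPl')

end Cfg

end Pool.Agent.H721Pach
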