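import Pool.Agent.H721Pach.J3

set_option autoImplicit false

open MeasureTheory Set

namespace Pool.Agent.H721Pach
namespace Cfg
variable {N : ℕ} (C : Cfg N)

/-- Unstable curve in the plane of disc `i`, a graph over the direction `t ∈ [a,b]`. -/
def UC (i : Fin N) (a b : ℝ) (Y : ℝ → ℝ × ℝ) (s : ℝ → ℝ) : Prop :=
  ∀ t ∈ Icc a b, (Y t).1 = t ∧ |(Y t).2| < C.r i ∧
    HasDerivWithinAt (fun u => (Y u).2) (-(s t)) (Icc a b) t ∧ 0 ≤ s t ∧ s t ≤ C.hh i (Y t).2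


theorem h441_inv {a b : ℝ} (hab : a ≤ b) {θ θ' : ℝ → ℝ} {L : ℝ} (hL : 0 < L)
    (hd : ∀ t ∈ Icc a b, HasDerivWithinAt θ (θ' t) (Icc a b) t) (hle : ∀ t ∈ Icc a b, θ' t ≤ -L) :
    (∀ t₁ ∈ Icc a b, ∀ t₂ ∈ Icc a b, t₁ ≤ t₂ → L * (t₂ - t₁) ≤ θ t₁ - θ t₂) ∧
    ∃ σ : ℝ → ℝ, (∀ t ∈ Icc a b, σ (θ t) = t) ∧ (∀ y ∈ Icc (θ b) (θ a), σ y ∈ Icc a b ∧ θ (σ y) = y) ∧
      (∀ y₁ ∈ Icc (θ b) (θ a), ∀ y₂ ∈ Icc (θ b) (θ a), |σ y₁ - σ y₂| ≤ |y₁ - y₂| / L) ∧
      (∀ y ∈ Icc (θ b) (θ a), HasDerivWithinAt σ (θ' (σ y))⁻¹ (Icc (θ b) (θ a)) y) := by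
  have hcont : ContinuousOn θ (Icc a b) := fun t ht => (hd t ht).continuousWithinAt
  have h1 : ∀ t₁ ∈ Icc a b, ∀ t₂ ∈ Icc a b, t₁ ≤ t₂ → L * (t₂ - t₁) ≤ θ t₁ - θ t₂ := by
    have hanti : AntitoneOn (fun t => θ t + L * t) (Icc a b) := by
      apply antitoneOn_of_deriv_nonpos (convex_Icc a b)
      · have hc2 : ContinuousOn (fun t : ℝ => L * t) (Icc a b) := by fun_prop
        exact hcont.add hc2
      · intro t ht
        rw [interior_Icc] at ht
        have h2 := (hd t (Ioo_subset_Icc_self ht)).hasDerivAt (Icc_mem_nhds ht.1 ht.2)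
        have h3 : HasDerivAt (fun t => θ t + L * t) (θ' t + L * 1) t :=
          h2.add ((hasDerivAt_id t).const_mul L)
        exact h3.differentiableAt.differentiableWithinAt
      · intro t ht
        rw [interior_Icc] at ht
        have h2 := (hd t (Ioo_subset_Icc_self ht)).hasDerivAt (Icc_mem_nhds ht.1 ht.2)
        have h3 : HasDerivAt (fun t => θ t + L * t) (θ' t + L * 1) t :=
          h2.add ((hasDerivAt_id t).const_mul L)
        rw [h3.deriv]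
        linarith [hle t (Ioo_subset_Icc_self ht)]
    intro t₁ h₁ t₂ h₂ h12
    have h4 : θ t₂ + L * t₂ ≤ θ t₁ + L * t₁ := hanti h₁ h₂ h12
    linarith
  have h1' : ∀ t₁ ∈ Icc a b, ∀ t₂ ∈ Icc a b, |t₁ - t₂| ≤ |θ t₁ - θ t₂| / L := by
    intro t₁ h₁ t₂ h₂
    rw [le_div_iff₀ hL]
    rcases le_total t₁ t₂ with h | h
    · have h5 := h1 t₁ h₁ t₂ h₂ h
      rw [abs_of_nonpos (by linarith : t₁ - t₂ ≤ 0)]
      have h6 := le_abs_self (θ t₁ - θ t₂)
      linarith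
    · have h5 := h1 t₂ h₂ t₁ h₁ h
      rw [abs_of_nonneg (by linarith : 0 ≤ t₁ - t₂)]
      have h6 := neg_abs_le (θ t₁ - θ t₂)
      linarith
  have hsurj : ∀ y ∈ Icc (θ b) (θ a), ∃ t ∈ Icc a b, θ t = y := fun y hy =>
    intermediate_value_Icc' hab hcont hy
  have hσ : ∀ y ∈ Icc (θ b) (θ a), Function.invFunOn θ (Icc a b) y ∈ Icc a b ∧
      θ (Function.invFunOn θ (Icc a b) y) = y := fun y hy =>
    ⟨Function.invFunOn_mem (hsurj y hy), Function.invFunOn_eq (hsurj y hy)⟩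
  have hinj : ∀ t₁ ∈ Icc a b, ∀ t₂ ∈ Icc a b, θ t₁ = θ t₂ → t₁ = t₂ := by
    intro t₁ h₁ t₂ h₂ h
    have h7 := h1' t₁ h₁ t₂ h₂
    rw [h, sub_self, abs_zero, zero_div] at h7
    exact sub_eq_zero.mp (abs_nonpos_iff.mp h7)
  have hlip : ∀ y₁ ∈ Icc (θ b) (θ a), ∀ y₂ ∈ Icc (θ b) (θ a),
      |Function.invFunOn θ (Icc a b) y₁ - Function.invFunOn θ (Icc a b) y₂| ≤ |y₁ - y₂| / L := by
    intro y₁ hy₁ y₂ hy₂
    have h8 := h1' _ (hσ y₁ hy₁).1 _ (hσ y₂ hy₂).1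
    rw [(hσ y₁ hy₁).2, (hσ y₂ hy₂).2] at h8
    exact h8
  refine ⟨h1, Function.invFunOn θ (Icc a b), ?_, hσ, hlip, ?_⟩
  · intro t ht
    have h9 : ∃ t' ∈ Icc a b, θ t' = θ t := ⟨t, ht, rfl⟩
    exact hinj _ (Function.invFunOn_mem h9) _ ht (Function.invFunOn_eq h9)
  · intro y hy
    obtain ⟨hmem, heq⟩ := hσ y hy
    rw [hasDerivWithinAt_iff_tendsto_slope]
    have hs := (hasDerivWithinAt_iff_tendsto_slope.mp (hd _ hmem)).inv₀
      (ne_of_lt (lt_of_le_of_lt (hle _ hmem) (by linarith)))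
    have hcs : ContinuousOn (Function.invFunOn θ (Icc a b)) (Icc (θ b) (θ a)) := by
      have hl : LipschitzOnWith ⟨1 / L, by positivity⟩ (Function.invFunOn θ (Icc a b))
          (Icc (θ b) (θ a)) := by
        apply LipschitzOnWith.of_dist_le_mul
        intro y₁ hy₁ y₂ hy₂
        rw [Real.dist_eq, Real.dist_eq]
        have h10 := hlip y₁ hy₁ y₂ hy₂
        show _ ≤ 1 / L * |y₁ - y₂|
        rw [one_div_mul_eq_div]
        exact h10
      exact hl.continuousOn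
    have hcomp : Filter.Tendsto (Function.invFunOn θ (Icc a b)) (nhdsWithin y (Icc (θ b) (θ a) \ {y}))
        (nhdsWithin (Function.invFunOn θ (Icc a b) y) (Icc a b \ {Function.invFunOn θ (Icc a b) y})) := by
      rw [tendsto_nhdsWithin_iff]
      constructor
      · exact (hcs y hy).mono_left (nhdsWithin_mono _ sdiff_subset)
      · filter_upwards [self_mem_nhdsWithin] with z hz
        refine ⟨(hσ z hz.1).1, fun h => hz.2 ?_⟩
        have h11 := (hσ z hz.1).2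
        rw [mem_singleton_iff] at h
        rw [h, heq] at h11
        exact h11.symm
    refine (hs.comp hcomp).congr' ?_
    filter_upwards [self_mem_nhdsWithin] with z hz
    simp only [Function.comp]
    rw [slope_def_field, slope_def_field, (hσ z hz.1).2, heq, inv_div]


-- TARGET
/-- The image of an unstable curve after one reflection, reparametrised by the new direction. -/
theorem UC_step {i k : Fin N} {a b : ℝ} (hab : a ≤ b) {Y : ℝ → ℝ × ℝ} {s : ℝ → ℝ}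
    (hY : C.UC i a b Y s) (hH : ∀ t ∈ Icc a b, C.Hit i k (Y t)) :
    ∃ (a' b' : ℝ) (σ : ℝ → ℝ) (s' : ℝ → ℝ), a' ≤ b' ∧
      (∀ t ∈ Icc a b, a' ≤ (C.F i k (Y t)).1 - C.Lam * (b - t) ∧
        (C.F i k (Y t)).1 + C.Lam * (t - a) ≤ b') ∧
      (∀ t ∈ Icc a b, σ (C.F i k (Y t)).1 = t) ∧
      (∀ t' ∈ Icc a' b', σ t' ∈ Icc a b) ∧
      (∀ t₁ ∈ Icc a' b', ∀ t₂ ∈ Icc a' b', |σ t₁ - σ t₂| ≤ |t₁ - t₂| / C.Lam) ∧
      C.UC k a' b' (fun t' => C.F i k (Y (σ t'))) s' ∧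
      (∀ t' ∈ Icc a' b', C.hh k (C.F i k (Y (σ t'))).2 / 2 ≤ s' t') := by
  have hr : ∀ l, 0 < C.r l := fun l => lt_of_lt_of_le C.g_pos (C.g_le l)
  have hR : 0 < C.R := lt_of_lt_of_le C.g_pos C.g_le_R
  have hpr : ∀ t ∈ Icc a b, |C.PP i k (Y t)| < C.r k := fun t ht => (hH t ht).2.2.2.1
  have hh0 : ∀ t ∈ Icc a b, 0 < C.hh k (C.PP i k (Y t)) := by
    intro t ht
    unfold Cfg.hh
    apply Real.sqrt_pos.mpr
    have h1 := hpr t ht
    have h2 := abs_nonneg (C.PP i k (Y t))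
    have h3 := sq_abs (C.PP i k (Y t))
    nlinarith
  have hhr : ∀ t ∈ Icc a b, C.hh k (C.PP i k (Y t)) ≤ C.R := by
    intro t ht
    refine le_trans ?_ (C.r_le k)
    unfold Cfg.hh
    rw [Real.sqrt_le_left (hr k).le]
    nlinarith [sq_nonneg (C.PP i k (Y t))]
  have hwb : ∀ t ∈ Icc a b, C.hh k (C.PP i k (Y t)) + C.g ≤ C.tau i k t - s t := by
    intro t ht
    obtain ⟨h1, h2, h3, h4, h5⟩ := hY t ht
    obtain ⟨g1, g2, g3, g4, _⟩ := hH t ht
    have h6 := C.tau_gap g2 h2.le g4.le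
    rw [abs_of_pos g3, h1] at h6
    linarith
  have hpd : ∀ t ∈ Icc a b,
      HasDerivWithinAt (fun u => C.PP i k (Y u)) (C.tau i k t - s t) (Icc a b) t := by
    intro t ht
    have h1 := (hY t ht).2.2.1.add ((C.hasDerivAt_off i k t).hasDerivWithinAt (s := Icc a b))
    have h2 : HasDerivWithinAt (fun u => (Y u).2 + C.off i k u) (-(s t) + C.tau i k t) (Icc a b) t := h1
    rw [show -(s t) + C.tau i k t = C.tau i k t - s t by ring] at h2
    refine h2.congr (fun u hu => ?_) ?_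
    · show (Y u).2 + C.off i k (Y u).1 = (Y u).2 + C.off i k u
      rw [(hY u hu).1]
    · show (Y t).2 + C.off i k (Y t).1 = (Y t).2 + C.off i k t
      rw [(hY t ht).1]
  have hhk : ∀ p : ℝ, C.hh k p = C.r k * Real.sqrt (1 - (p / C.r k) ^ 2) := by
    intro p
    unfold Cfg.hh
    have h1 : C.r k ^ 2 - p ^ 2 = C.r k ^ 2 * (1 - (p / C.r k) ^ 2) := by
      have := (hr k).ne'
      field_simp
    rw [h1, Real.sqrt_mul (sq_nonneg _), Real.sqrt_sq (hr k).le]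
  have hθd : ∀ t ∈ Icc a b, HasDerivWithinAt (fun u => (C.F i k (Y u)).1)
      (1 - 2 * ((C.tau i k t - s t) / C.hh k (C.PP i k (Y t)))) (Icc a b) t := by
    intro t ht
    have h1 := (hpd t ht).div_const (C.r k)
    have h2 : |C.PP i k (Y t) / C.r k| < 1 := by
      rw [abs_div, abs_of_pos (hr k), div_lt_one (hr k)]
      exact hpr t ht
    obtain ⟨h3, h4⟩ := abs_lt.mp h2
    have h5 := (Real.hasDerivAt_arcsin h3.ne' h4.ne).comp_hasDerivWithinAt t h1
    have h6 : HasDerivWithinAt (fun u => u + Real.pi - 2 * Real.arcsin (C.PP i k (Y u) / C.r k))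
        (1 - 2 * ((C.tau i k t - s t) / C.hh k (C.PP i k (Y t)))) (Icc a b) t := by
      have h7 : HasDerivWithinAt (fun u => u + Real.pi - 2 * Real.arcsin (C.PP i k (Y u) / C.r k))
          (1 - 2 * (1 / √(1 - (C.PP i k (Y t) / C.r k) ^ 2) * ((C.tau i k t - s t) / C.r k)))
          (Icc a b) t :=
        ((hasDerivWithinAt_id t (Icc a b)).add_const Real.pi).sub (h5.const_mul 2)
      have h8 : 0 < Real.sqrt (1 - (C.PP i k (Y t) / C.r k) ^ 2) := by
        have := hh0 t ht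
        rw [hhk] at this
        exact (mul_pos_iff_of_pos_left (hr k)).mp this
      have h9 := (hr k).ne'
      have h10 : (1 / √(1 - (C.PP i k (Y t) / C.r k) ^ 2) * ((C.tau i k t - s t) / C.r k)) =
          (C.tau i k t - s t) / C.hh k (C.PP i k (Y t)) := by
        rw [hhk, one_div_mul_eq_div, div_div]
      rw [h10] at h7
      exact h7
    refine h6.congr (fun u hu => ?_) ?_
    · show (Y u).1 + Real.pi - 2 * Real.arcsin (C.PP i k (Y u) / C.r k) = _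
      rw [(hY u hu).1]
    · show (Y t).1 + Real.pi - 2 * Real.arcsin (C.PP i k (Y t) / C.r k) = _
      rw [(hY t ht).1]
  have hLam : 0 < C.Lam := by
    unfold Lam
    have := C.g_pos
    positivity
  have hθle : ∀ t ∈ Icc a b, (1 - 2 * ((C.tau i k t - s t) / C.hh k (C.PP i k (Y t)))) ≤ -C.Lam := by
    intro t ht
    have h1 := hwb t ht
    have h2 := hh0 t ht
    have h3 := hhr t ht
    have h4 : (C.hh k (C.PP i k (Y t)) + C.g) / C.hh k (C.PP i k (Y t)) ≤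
        (C.tau i k t - s t) / C.hh k (C.PP i k (Y t)) := by gcongr
    have h5 : (C.hh k (C.PP i k (Y t)) + C.g) / C.hh k (C.PP i k (Y t)) =
        1 + C.g / C.hh k (C.PP i k (Y t)) := by
      rw [add_div, div_self h2.ne']
    have h6 : C.g / C.R ≤ C.g / C.hh k (C.PP i k (Y t)) :=
      div_le_div_of_nonneg_left C.g_pos.le h2 h3
    unfold Lam
    rw [h5] at h4
    have h7 : 2 * C.g / C.R = 2 * (C.g / C.R) := by ring
    rw [h7]
    linarith
  obtain ⟨hmono, σ, hσ1, hσ2, hσ3, hσ4⟩ := h441_inv hab (θ := fun u => (C.F i k (Y u)).1)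
    (θ' := fun t => 1 - 2 * ((C.tau i k t - s t) / C.hh k (C.PP i k (Y t)))) hLam hθd hθle
  have ha : a ∈ Icc a b := ⟨le_rfl, hab⟩
  have hb : b ∈ Icc a b := ⟨hab, le_rfl⟩
  refine ⟨(C.F i k (Y b)).1, (C.F i k (Y a)).1, σ,
    fun t' => (C.tau i k (σ t') - s (σ t')) /
      (2 * ((C.tau i k (σ t') - s (σ t')) / C.hh k (C.PP i k (Y (σ t')))) - 1), ?_, ?_, hσ1,
      fun t' ht' => (hσ2 t' ht').1, hσ3, ?_, ?_⟩
  · have h1 : C.Lam * (b - a) ≤ (C.F i k (Y a)).1 - (C.F i k (Y b)).1 := hmono a ha b hb hab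
    have h2 : 0 ≤ C.Lam * (b - a) := mul_nonneg hLam.le (by linarith)
    linarith
  · intro t ht
    have h1 : C.Lam * (b - t) ≤ (C.F i k (Y t)).1 - (C.F i k (Y b)).1 := hmono t ht b hb ht.2
    have h2 : C.Lam * (t - a) ≤ (C.F i k (Y a)).1 - (C.F i k (Y t)).1 := hmono a ha t ht ht.1
    constructor <;> linarith
  · intro t' ht'
    obtain ⟨hm, he⟩ := hσ2 t' ht'
    have h1 := hwb _ hm
    have h2 := hh0 _ hm
    have hg := C.g_pos
    have hw1 : C.hh k (C.PP i k (Y (σ t'))) ≤ C.tau i k (σ t') - s (σ t') := by linarith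
    have h3 : 1 ≤ (C.tau i k (σ t') - s (σ t')) / C.hh k (C.PP i k (Y (σ t'))) := by
      rw [one_le_div h2]
      exact hw1
    have h4 : 0 < 2 * ((C.tau i k (σ t') - s (σ t')) / C.hh k (C.PP i k (Y (σ t')))) - 1 := by linarith
    refine ⟨he, hpr _ hm, ?_, ?_, ?_⟩
    · have h5 := (hpd _ hm).comp t' (hσ4 t' ht') (fun u hu => (hσ2 u hu).1)
      have h6 : -((C.tau i k (σ t') - s (σ t')) /
        (2 * ((C.tau i k (σ t') - s (σ t')) / C.hh k (C.PP i k (Y (σ t')))) - 1)) =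
        (C.tau i k (σ t') - s (σ t')) *
          (1 - 2 * ((C.tau i k (σ t') - s (σ t')) / C.hh k (C.PP i k (Y (σ t')))))⁻¹ := by
        rw [show (1 - 2 * ((C.tau i k (σ t') - s (σ t')) / C.hh k (C.PP i k (Y (σ t'))))) =
          -(2 * ((C.tau i k (σ t') - s (σ t')) / C.hh k (C.PP i k (Y (σ t')))) - 1) by ring,
          inv_neg, div_eq_mul_inv]
        ring
      show HasDerivWithinAt (fun u => C.PP i k (Y (σ u))) _ _ _
      rw [h6]
      exact h5
    · apply div_nonneg _ h4.le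
      linarith
    · show _ ≤ C.hh k (C.PP i k (Y (σ t')))
      rw [div_le_iff₀ h4]
      have h7 : C.hh k (C.PP i k (Y (σ t'))) *
        (2 * ((C.tau i k (σ t') - s (σ t')) / C.hh k (C.PP i k (Y (σ t')))) - 1) =
        2 * (C.tau i k (σ t') - s (σ t')) - C.hh k (C.PP i k (Y (σ t'))) := by
        field_simp
      rw [h7]
      linarith
  · intro t' ht'
    obtain ⟨hm, he⟩ := hσ2 t' ht'
    have h1 := hwb _ hm
    have h2 := hh0 _ hm
    have hg := C.g_pos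
    have hw1 : C.hh k (C.PP i k (Y (σ t'))) ≤ C.tau i k (σ t') - s (σ t') := by linarith
    have h3 : 1 ≤ (C.tau i k (σ t') - s (σ t')) / C.hh k (C.PP i k (Y (σ t'))) := by
      rw [one_le_div h2]
      exact hw1
    have h4 : 0 < 2 * ((C.tau i k (σ t') - s (σ t')) / C.hh k (C.PP i k (Y (σ t')))) - 1 := by linarith
    show C.hh k (C.PP i k (Y (σ t'))) / 2 ≤ _
    rw [le_div_iff₀ h4]
    have h7 : C.hh k (C.PP i k (Y (σ t'))) / 2 *
      (2 * ((C.tau i k (σ t') - s (σ t')) / C.hh k (C.PP i k (Y (σ t')))) - 1) =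
      (C.tau i k (σ t') - s (σ t')) - C.hh k (C.PP i k (Y (σ t'))) / 2 := by
      field_simp
    rw [h7]
    linarith

end Cfg

end Pool.Agent.H721Pach
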