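import Mathlib

set_option autoImplicit false

open MeasureTheory Set

namespace Pool.Agent.H721Pach
namespace Cfg
variable {N : ℕ} (C : Cfg N)

theorem half_path (m : ℕ) (c : ℕ → EuclideanSpace ℝ (Fin 2)) (ρ : ℕ → ℝ)
    (q q' u : ℕ → EuclideanSpace ℝ (Fin 2)) (d a : ℕ → ℝ)
    (hu : ∀ k ≤ m, ‖u k‖ = 1)
    (hd : ∀ k < m, 0 < d k)
    (hq : ∀ k < m, q (k + 1) = q k + d k • u k)
    (hc : ∀ k, 1 ≤ k → k ≤ m → ‖q k - c k‖ = ρ k)
    (hc' : ∀ k, 1 ≤ k → k ≤ m → ‖q' k - c k‖ = ρ k)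
    (hr : ∀ k, 1 ≤ k → k ≤ m → u k - u (k - 1) = a k • (q k - c k))
    (h0 : q 0 = q' 0) : ∀ j ≤ m,
    ∑ k ∈ Finset.range j, a (k + 1) / 2 * ‖q' (k + 1) - q (k + 1)‖ ^ 2 ≤
      ∑ k ∈ Finset.range j, (‖q' (k + 1) - q' k‖ - ‖q (k + 1) - q k‖)
        - inner ℝ (q' j - q j) (u j) := by
  intro j
  induction j with
  | zero =>
    intro _
    simp [h0]
  | succ j ih =>
    intro hj
    have ih' := ih (by omega)
    rw [Finset.sum_range_succ, Finset.sum_range_succ]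
    have h1 : inner ℝ (u j) (q' (j + 1) - q' j) ≤ ‖q' (j + 1) - q' j‖ := by
      have := real_inner_le_norm (u j) (q' (j + 1) - q' j)
      rwa [hu j (by omega), one_mul] at this
    have h2 : ‖q (j + 1) - q j‖ = inner ℝ (u j) (q (j + 1) - q j) := by
      rw [hq j (by omega), add_sub_cancel_left, norm_smul, inner_smul_right,
        real_inner_self_eq_norm_sq, hu j (by omega), Real.norm_eq_abs, abs_of_pos (hd j (by omega))]
      norm_num
    have h3 : inner ℝ (q (j + 1) - c (j + 1)) (q' (j + 1) - q (j + 1))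
        = - (1 / 2) * ‖q' (j + 1) - q (j + 1)‖ ^ 2 := by
      have h4 := norm_add_sq_real (q (j + 1) - c (j + 1)) (q' (j + 1) - q (j + 1))
      have h5 : q (j + 1) - c (j + 1) + (q' (j + 1) - q (j + 1)) = q' (j + 1) - c (j + 1) := by abel
      rw [h5, hc' (j + 1) (by omega) hj, hc (j + 1) (by omega) hj] at h4
      linarith
    have h6 := hr (j + 1) (by omega) hj
    rw [Nat.add_sub_cancel] at h6
    have h7 : inner ℝ (u (j + 1) - u j) (q' (j + 1) - q (j + 1))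
        = - (a (j + 1) / 2) * ‖q' (j + 1) - q (j + 1)‖ ^ 2 := by
      rw [h6, inner_smul_left, h3]
      simp
      ring
    have h8 : inner ℝ (u (j + 1) - u j) (q' (j + 1) - q (j + 1))
        = inner ℝ (q' (j + 1) - q (j + 1)) (u (j + 1))
          - inner ℝ (u j) (q' (j + 1)) + inner ℝ (u j) (q (j + 1)) := by
      rw [inner_sub_left, real_inner_comm (q' (j + 1) - q (j + 1)) (u (j + 1)),
        inner_sub_right (u j)]
      ring
    have h9 : inner ℝ (q' j - q j) (u j) = inner ℝ (u j) (q' j) - inner ℝ (u j) (q j) := by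
      rw [real_inner_comm, inner_sub_right]
    rw [inner_sub_right] at h1 h2
    rw [h2]
    linarith

-- TARGET
/-- Uniqueness of proper reflected paths with a given itinerary of discs, a given starting point
and a given final direction.  `q k` are the reflection points, `u k` the unit directions:
`q (k+1) = q k + d k • u k`, reflection at a disc with centre `c k` and radius `ρ k`. -/
theorem path_unique (m : ℕ) (c : ℕ → EuclideanSpace ℝ (Fin 2)) (ρ : ℕ → ℝ)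
    (q q' u u' : ℕ → EuclideanSpace ℝ (Fin 2)) (d d' a a' : ℕ → ℝ)
    (hρ : ∀ k, 0 < ρ k)
    (hu : ∀ k ≤ m, ‖u k‖ = 1) (hu' : ∀ k ≤ m, ‖u' k‖ = 1)
    (hd : ∀ k < m, 0 < d k) (hd' : ∀ k < m, 0 < d' k)
    (hq : ∀ k < m, q (k + 1) = q k + d k • u k)
    (hq' : ∀ k < m, q' (k + 1) = q' k + d' k • u' k)
    (hc : ∀ k, 1 ≤ k → k ≤ m → ‖q k - c k‖ = ρ k)
    (hc' : ∀ k, 1 ≤ k → k ≤ m → ‖q' k - c k‖ = ρ k)
    (ha : ∀ k, 1 ≤ k → k ≤ m → 0 < a k) (ha' : ∀ k, 1 ≤ k → k ≤ m → 0 < a' k)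
    (hr : ∀ k, 1 ≤ k → k ≤ m → u k - u (k - 1) = a k • (q k - c k))
    (hr' : ∀ k, 1 ≤ k → k ≤ m → u' k - u' (k - 1) = a' k • (q' k - c k))
    (h0 : q 0 = q' 0) (hend : u m = u' m) : ∀ k ≤ m, q k = q' k := by
  have h1 := half_path m c ρ q q' u d a hu hd hq hc hc' hr h0 m le_rfl
  have h2 := half_path m c ρ q' q u' d' a' hu' hd' hq' hc' hc hr' h0.symm m le_rfl
  have h3 : inner ℝ (q m - q' m) (u' m) = - inner ℝ (q' m - q m) (u m) := by
    rw [← hend, ← inner_neg_left, neg_sub]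
  have h4 : ∑ k ∈ Finset.range m, (‖q (k + 1) - q k‖ - ‖q' (k + 1) - q' k‖)
      = - ∑ k ∈ Finset.range m, (‖q' (k + 1) - q' k‖ - ‖q (k + 1) - q k‖) := by
    rw [← Finset.sum_neg_distrib]
    apply Finset.sum_congr rfl
    intro k _
    ring
  rw [h3, h4] at h2
  have h5 : ∑ k ∈ Finset.range m, (a (k + 1) / 2 * ‖q' (k + 1) - q (k + 1)‖ ^ 2
      + a' (k + 1) / 2 * ‖q (k + 1) - q' (k + 1)‖ ^ 2) ≤ 0 := by
    rw [Finset.sum_add_distrib]
    linarith
  have h6 : ∀ k ∈ Finset.range m, 0 ≤ a (k + 1) / 2 * ‖q' (k + 1) - q (k + 1)‖ ^ 2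
      + a' (k + 1) / 2 * ‖q (k + 1) - q' (k + 1)‖ ^ 2 := by
    intro k hk
    have hk' := Finset.mem_range.1 hk
    have := ha (k + 1) (by omega) (by omega)
    have := ha' (k + 1) (by omega) (by omega)
    positivity
  have h7 := (Finset.sum_eq_zero_iff_of_nonneg h6).1 (le_antisymm h5 (Finset.sum_nonneg h6))
  intro k hk
  rcases k with _ | k
  · exact h0
  · have h8 := h7 k (Finset.mem_range.2 (by omega))
    have h9 := ha (k + 1) (by omega) (by omega)
    have h10 := ha' (k + 1) (by omega) (by omega)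
    have h11 : 0 ≤ a' (k + 1) / 2 * ‖q (k + 1) - q' (k + 1)‖ ^ 2 := by positivity
    have h12 : 0 ≤ a (k + 1) / 2 * ‖q' (k + 1) - q (k + 1)‖ ^ 2 := by positivity
    have h13 : a' (k + 1) / 2 * ‖q (k + 1) - q' (k + 1)‖ ^ 2 = 0 := by linarith
    rcases mul_eq_zero.1 h13 with h14 | h14
    · linarith
    · have h15 := pow_eq_zero_iff (two_ne_zero) |>.1 h14
      exact sub_eq_zero.1 (norm_eq_zero.1 h15)

end Cfg

end Pool.Agent.H721Pach
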